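import Pool.Agent.P.MP_cf639b_al.All

/-! A finite dimensional algebra over an algebraically closed field which is not tame domestic
(in particular a tame non-domestic one) has undefined Krull-Gabriel dimension.
Right `R`-modules are left `Rᵐᵒᵖ`-modules. -/

namespace Pool.Agent.Results.MP_cf639b_al.Full

open Pool.Agent.P.MP_cf639b_al

universe u v

theorem result (k : Type u) [Field k] [IsAlgClosed k] (R : Type u) [Ring R] [Algebra k R]
    [FiniteDimensional k R] (hd : ¬ Domestic k Rᵐᵒᵖ) : KGInfinite.{u, v} Rᵐᵒᵖ :=
  main.{u, v} k Rᵐᵒᵖ hd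

end Pool.Agent.Results.MP_cf639b_al.Full
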